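import Pool.Agent.H140.LD.Conv

/-!
# MP_e449c6_nt: a four-parameter Legendre-symbol determinant of order `(p - 3) / 2`

For every prime `p ≥ 5` and all complex `x, y, z, w` the determinant of order `(p - 3) / 2` with
entries `x + ((j-k)/p) + (j/p) y + (k/p) z + (jk/p) w` is
`(2/p) (2 a' - p b') x + (a' - 2 b') ((1 + y) (1 + z) - w x)` if `p = 1` modulo `4`, and
`w x + (1 + y) (1 - z)` if `p = 3` modulo `4`.

Method. Put `t_a = (a/p) ζ^a`. The matrix with the rows `(u^0, u^(p+1), u^2, u^3, ..., u^(p-1))` for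
the nodes `u = ± 1, t_1, ..., t_(p-1)` is the product of the Fourier matrix and a matrix whose
columns of even index and of index one are unit vectors, and whose remaining block is a multiple of
`[(2/p) ((i-j)/p) + x]`. Its determinant is the Vandermonde determinant times a coefficient of the
remainder of `u^(p+1)` modulo the polynomial with the given nodes; the class number formula of
`ℚ(√p)` gives `∏ (t_a ± 1)`.
-/

set_option autoImplicit false

namespace Pool.Agent.Results.MP_e449c6_nt.FourParameters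

open NumberField Pool.Agent.H140.LD

/-- The determinant `D_p`. -/
noncomputable def D (p : ℕ) [Fact p.Prime] (x y z w : ℂ) : ℂ :=
  (Matrix.of fun j k : Fin ((p - 3) / 2) =>
    x + ((legendreSym p (((j : ℕ) : ℤ) - ((k : ℕ) : ℤ)) : ℤ) : ℂ) +
      ((legendreSym p ((j : ℕ) : ℤ) : ℤ) : ℂ) * y + ((legendreSym p ((k : ℕ) : ℤ) : ℤ) : ℂ) * z +
      ((legendreSym p (((j : ℕ) : ℤ) * ((k : ℕ) : ℤ)) : ℤ) : ℂ) * w).det

/-- **Q1.** `K = ℚ(√p)`, `s = √p`, `ε` the fundamental unit larger than `1` (in the real embedding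
`σ` with `σ s > 0`), `ε ^ ((2 - (2/p)) h) = a' + b' s`. -/
theorem result (p : ℕ) [Fact p.Prime] (hp5 : 5 ≤ p) :
    (p % 4 = 1 → ∀ (K : Type) [Field K] [NumberField K] (s : K) (σ : K →+* ℝ) (ε : (𝓞 K)ˣ)
      (a' b' : ℚ), FundUnit p K s σ ε →
      ((ε : 𝓞 K) : K) ^ ((2 - legendreSym p 2).toNat * classNumber K) = a' + b' * s →
      ∀ x y z w : ℂ, D p x y z w =
        ((legendreSym p 2 : ℤ) : ℂ) * (2 * a' - p * b') * x +
          (a' - 2 * b') * ((1 + y) * (1 + z) - w * x)) ∧
    (p % 4 = 3 → ∀ x y z w : ℂ, D p x y z w = w * x + (1 + y) * (1 - z)) := by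
  have hodd : p % 2 = 1 := by
    rcases (Fact.out : p.Prime).eq_two_or_odd with h | h
    · omega
    · exact h
  obtain ⟨m, hm⟩ : ∃ m, p = 2 * m + 1 := ⟨p / 2, by omega⟩
  have hn : (p - 3) / 2 = m - 1 := by omega
  constructor
  · intro h4 K _ _ s σ ε a' b' hF hab x y z w
    unfold D
    rw [hn, four_T (by omega) (a' - 2 * b') (chi p 2 * (2 * a' - p * b')) (fun x => by
      rw [TJ_m1_one h4 hm hF hab]) x y z w, sg_one h4, leg_chi]
    push_cast
    ring
  · intro h4 x y z w
    unfold D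
    rw [hn, four_T (by omega) 1 0 (fun x => by rw [TJ_m1_three h4 hm]; ring) x y z w,
      sg_three h4]
    ring

end Pool.Agent.Results.MP_e449c6_nt.FourParameters
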